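import Mathlib

set_option autoImplicit false

/-!
# The unitriangular group and the non-commuting number: definitions
-/

namespace Pool.Agent.Lib.P55cbc6

open Finset Matrix

/-- The group of upper unitriangular `n × n` matrices over `F`. -/
def UU (n : ℕ) (F : Type*) [Field F] : Subgroup (GL (Fin n) F) where
  carrier := {g | (∀ i j : Fin n, j < i → (g : Matrix (Fin n) (Fin n) F) i j = 0) ∧
    ∀ i : Fin n, (g : Matrix (Fin n) (Fin n) F) i i = 1}
  mul_mem' := by
    rintro g h ⟨hg, hg1⟩ ⟨hh, hh1⟩
    constructor
    · intro i j hij
      rw [GeneralLinearGroup.coe_mul, Matrix.mul_apply]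
      apply sum_eq_zero
      intro k _
      by_cases hki : k < i
      · rw [hg i k hki, zero_mul]
      · rw [hh k j (lt_of_lt_of_le hij (not_lt.mp hki)), mul_zero]
    · intro i
      rw [GeneralLinearGroup.coe_mul, Matrix.mul_apply, sum_eq_single i]
      · rw [hg1, hh1, mul_one]
      · intro k _ hk
        rcases lt_or_gt_of_ne hk with h1 | h1
        · rw [hg i k h1, zero_mul]
        · rw [hh k i h1, mul_zero]
      · intro hi
        exact absurd (mem_univ i) hi
  one_mem' := by
    constructor
    · intro i j hij
      rw [GeneralLinearGroup.coe_one, Matrix.one_apply_ne hij.ne']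
    · intro i
      rw [GeneralLinearGroup.coe_one, Matrix.one_apply_eq]
  inv_mem' := by
    rintro g ⟨hg, hg1⟩
    have htri : BlockTriangular (g⁻¹ : GL (Fin n) F).1 id := by
      have h1 : BlockTriangular (g : Matrix (Fin n) (Fin n) F) id := fun i j hij => hg i j hij
      rw [Matrix.coe_units_inv]
      exact blockTriangular_inv_of_blockTriangular h1
    constructor
    · intro i j hij
      exact htri hij
    · intro i
      have h1 : ((g⁻¹ * g : GL (Fin n) F) : Matrix (Fin n) (Fin n) F) i i = 1 := by
        rw [inv_mul_cancel, GeneralLinearGroup.coe_one, Matrix.one_apply_eq]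
      rw [GeneralLinearGroup.coe_mul, Matrix.mul_apply, sum_eq_single i] at h1
      · rw [hg1, mul_one] at h1
        exact h1
      · intro k _ hk
        rcases lt_or_gt_of_ne hk with h1 | h1
        · have : (g⁻¹ : GL (Fin n) F).1 i k = 0 := htri h1
          rw [this, zero_mul]
        · rw [hg k i h1, mul_zero]
      · intro hi
        exact absurd (mem_univ i) hi

/-- A set of pairwise non-commuting elements. -/
def NonCommuting {G : Type*} [Group G] (X : Set G) : Prop :=
  ∀ x ∈ X, ∀ y ∈ X, x ≠ y → x * y ≠ y * x

/-- `omega G`: the largest size of a finite non-commuting subset of `G`. -/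
noncomputable def omega (G : Type*) [Group G] : ℕ :=
  sSup {k | ∃ X : Finset G, NonCommuting (X : Set G) ∧ #X = k}

end Pool.Agent.Lib.P55cbc6
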