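import Mathlib

set_option autoImplicit false
set_option linter.unusedSectionVars false

/-!
# Partial ovoids of the symplectic quadrangle avoiding a line

Vectors `(a, c, d, e)` with `(a, c) ≠ (0, 0)`, pairwise non-orthogonal for the alternating form
`a e' - a' e + d c' - d' c` over the finite field `F` with `q` elements.  There are at most `q ^ 2`
of them, and for odd `q` at most `q ^ 2 - 1`.
-/

namespace Pool.Agent.Lib.P55cbc6

open Finset

variable {F : Type*} [Field F] [Fintype F] [DecidableEq F]

/-- A partial ovoid off the line `a = c = 0`, indexed by a finset. -/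
structure PO {ι : Type*} (S : Finset ι) (a c d e : ι → F) : Prop where
  off : ∀ v ∈ S, ¬ (a v = 0 ∧ c v = 0)
  ne : ∀ v ∈ S, ∀ w ∈ S, v ≠ w → a v * e w + d v * c w ≠ a w * e v + d w * c v

variable {ι : Type*} {S : Finset ι} {a c d e : ι → F}

/-- Being on the totally isotropic line with parameters `l = (x, y, z)`. -/
def OnL (a c d e : ι → F) (v : ι) (l : F × F × F) : Prop :=
  d v = l.1 * a v + l.2.2 * c v ∧ e v = l.2.1 * a v - l.1 * c v

instance (v : ι) (l : F × F × F) : Decidable (OnL a c d e v l) := by
  unfold OnL; infer_instance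

theorem line_unique (h : PO S a c d e) (l : F × F × F) :
    #{v ∈ S | OnL a c d e v l} ≤ 1 := by
  rw [card_le_one]
  intro v hv w hw
  rw [mem_filter] at hv hw
  by_contra hne
  apply h.ne v hv.1 w hw.1 hne
  obtain ⟨h1, h2⟩ := hv.2
  obtain ⟨h3, h4⟩ := hw.2
  rw [h1, h2, h3, h4]
  ring

theorem lines_through (h : PO S a c d e) (v : ι) (hv : v ∈ S) :
    Fintype.card F ≤ #{l : F × F × F | OnL a c d e v l} := by
  by_cases ha : a v = 0
  · have hc : c v ≠ 0 := fun hc => h.off v hv ⟨ha, hc⟩
    rw [← card_univ (α := F)]
    apply card_le_card_of_injOn (fun y => (-(e v) / c v, y, d v / c v))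
    · intro y _
      rw [mem_coe, mem_filter]
      refine ⟨mem_univ _, ?_, ?_⟩
      · simp only [ha]
        field_simp
        ring
      · simp only [ha]
        field_simp
        ring
    · intro y _ y' _ hyy
      simp only [Prod.mk.injEq] at hyy
      exact hyy.2.1
  · rw [← card_univ (α := F)]
    apply card_le_card_of_injOn (fun z => ((d v - z * c v) / a v,
      (e v + (d v - z * c v) / a v * c v) / a v, z))
    · intro z _
      rw [mem_coe, mem_filter]
      refine ⟨mem_univ _, ?_, ?_⟩
      · simp only
        field_simp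
        ring
      · simp only
        field_simp
        ring
    · intro y _ y' _ hyy
      simp only [Prod.mk.injEq] at hyy
      exact hyy.2.2

theorem double_count : ∑ v ∈ S, #{l : F × F × F | OnL a c d e v l} =
    ∑ l : F × F × F, #{v ∈ S | OnL a c d e v l} := by
  simp only [card_filter]
  rw [sum_comm]

theorem card_mul_le (h : PO S a c d e) : #S * Fintype.card F ≤ Fintype.card F ^ 3 := by
  calc #S * Fintype.card F = ∑ v ∈ S, Fintype.card F := by rw [sum_const, smul_eq_mul]
    _ ≤ ∑ v ∈ S, #{l : F × F × F | OnL a c d e v l} :=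
        sum_le_sum fun v hv => lines_through h v hv
    _ = ∑ l : F × F × F, #{v ∈ S | OnL a c d e v l} := double_count
    _ ≤ ∑ l : F × F × F, 1 := sum_le_sum fun l _ => line_unique h l
    _ = Fintype.card F ^ 3 := by
        rw [sum_const, smul_eq_mul, mul_one, card_univ, Fintype.card_prod, Fintype.card_prod]
        ring

theorem card_le (h : PO S a c d e) : #S ≤ Fintype.card F ^ 2 := by
  have h1 := card_mul_le h
  have hq : 0 < Fintype.card F := Fintype.card_pos
  have : #S * Fintype.card F ≤ Fintype.card F ^ 2 * Fintype.card F := by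
    calc _ ≤ _ := h1
      _ = _ := by ring
  exact Nat.le_of_mul_le_mul_right this hq

/-- In the extremal case every line contains exactly one point. -/
theorem line_eq_one (h : PO S a c d e) (hS : #S = Fintype.card F ^ 2) (l : F × F × F) :
    #{v ∈ S | OnL a c d e v l} = 1 := by
  have h1 : ∑ l : F × F × F, #{v ∈ S | OnL a c d e v l} = ∑ _l : F × F × F, 1 := by
    apply le_antisymm
    · exact sum_le_sum fun l _ => line_unique h l
    · calc ∑ _l : F × F × F, 1 = #S * Fintype.card F := by
            rw [sum_const, smul_eq_mul, mul_one, card_univ, Fintype.card_prod,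
              Fintype.card_prod, hS]
            ring
        _ = ∑ v ∈ S, Fintype.card F := by rw [sum_const, smul_eq_mul]
        _ ≤ ∑ v ∈ S, #{l : F × F × F | OnL a c d e v l} :=
            sum_le_sum fun v hv => lines_through h v hv
        _ = _ := double_count
  exact (sum_eq_sum_iff_of_le (fun l _ => line_unique h l)).mp h1 l (mem_univ l)

/-- The class of slope `m`. -/
def cls (S : Finset ι) (a c : ι → F) (m : F) : Finset ι := {v ∈ S | c v = m * a v}

theorem mem_cls {v : ι} {m : F} : v ∈ cls S a c m ↔ v ∈ S ∧ c v = m * a v := by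
  simp [cls]

theorem a_ne_zero (h : PO S a c d e) {v : ι} {m : F} (hv : v ∈ cls S a c m) : a v ≠ 0 := by
  rw [mem_cls] at hv
  intro ha
  apply h.off v hv.1
  refine ⟨ha, ?_⟩
  rw [hv.2, ha, mul_zero]

theorem card_cls_le (h : PO S a c d e) (m : F) : #(cls S a c m) ≤ Fintype.card F := by
  rw [← card_univ (α := F)]
  apply card_le_card_of_injOn (fun v => (e v - m * d v) / a v)
  · intro v _
    simp
  · intro v hv w hw hvw
    by_contra hne
    have hav := a_ne_zero h hv
    have haw := a_ne_zero h hw
    have hv' := mem_cls.mp hv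
    have hw' := mem_cls.mp hw
    apply h.ne v hv'.1 w hw'.1 hne
    rw [hv'.2, hw'.2]
    simp only at hvw
    rw [div_eq_div_iff hav haw] at hvw
    linear_combination -hvw

theorem card_inf_le (h : PO S a c d e) : #{v ∈ S | a v = 0} ≤ Fintype.card F := by
  rw [← card_univ (α := F)]
  apply card_le_card_of_injOn (fun v => d v / c v)
  · intro v _
    simp
  · intro v hv w hw hvw
    by_contra hne
    simp only [coe_filter, Set.mem_ofPred_eq] at hv hw
    have hcv : c v ≠ 0 := fun hc => h.off v hv.1 ⟨hv.2, hc⟩
    have hcw : c w ≠ 0 := fun hc => h.off w hw.1 ⟨hw.2, hc⟩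
    apply h.ne v hv.1 w hw.1 hne
    rw [hv.2, hw.2]
    simp only at hvw
    rw [div_eq_div_iff hcv hcw] at hvw
    linear_combination hvw

/-- The fibres of the class `m` as seen from the class `n`. -/
def fib (S : Finset ι) (a c d e : ι → F) (m n t : F) : Finset ι :=
  {v ∈ S | c v = m * a v ∧ e v - n * d v = t * a v}

/-- The pencil of lines through the points `(1, n, δ, t + m δ)`. -/
def pen (m n t : F) (p : F × F) : F × F × F :=
  (p.1 - p.2 * n, t + m * p.1 + n * p.1 - p.2 * n ^ 2, p.2)

theorem onL_pen (v : ι) (m n t : F) (p : F × F) : OnL a c d e v (pen m n t p) ↔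
    (d v = p.1 * a v + p.2 * (c v - n * a v) ∧
      e v - n * d v = t * a v + p.1 * (m * a v - c v)) := by
  unfold OnL pen
  simp only
  constructor
  · rintro ⟨h1, h2⟩
    refine ⟨by rw [h1]; ring, ?_⟩
    rw [h2, h1]
    ring
  · rintro ⟨h1, h2⟩
    refine ⟨by rw [h1]; ring, ?_⟩
    have : e v = n * d v + (t * a v + p.1 * (m * a v - c v)) := by rw [← h2]; ring
    rw [this, h1]
    ring

theorem count_pen (h : PO S a c d e) {m n t : F} (hmn : m ≠ n)
    (ht : (fib S a c d e m n t).Nonempty) (v : ι) (hv : v ∈ S) :
    #{p : F × F | OnL a c d e v (pen m n t p)} =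
      (if c v = m * a v ∧ e v - n * d v = t * a v then Fintype.card F else 0)
      + (if ¬ (c v = m * a v) ∧ ¬ (c v = n * a v) then 1 else 0) := by
  have hmn' : m - n ≠ 0 := sub_ne_zero.mpr hmn
  simp only [onL_pen]
  by_cases hm : c v = m * a v
  · have hav : a v ≠ 0 := a_ne_zero h (mem_cls.mpr ⟨hv, hm⟩)
    have hw : m * a v - n * a v ≠ 0 := by
      rw [← sub_mul]
      exact mul_ne_zero hmn' hav
    by_cases ht' : e v - n * d v = t * a v
    · simp only [hm, ht', if_true, not_true_eq_false, false_and, if_false, add_zero,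
        sub_self, mul_zero, and_true]
      have : (filter (fun p : F × F => d v = p.1 * a v + p.2 * (m * a v - n * a v)) univ) =
          (univ : Finset F).image (fun δ => (δ, (d v - δ * a v) / (m * a v - n * a v))) := by
        ext ⟨δ, z⟩
        simp only [mem_filter, mem_univ, true_and, mem_image, Prod.mk.injEq, exists_eq_left]
        constructor
        · intro hd
          rw [hd]
          field_simp
          ring
        · intro hz
          rw [← hz]
          field_simp
          ring
      rw [this, card_image_of_injective, card_univ]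
      intro x y hxy
      simp only [Prod.mk.injEq] at hxy
      exact hxy.1
    · simp only [hm, ht', and_false, if_false, not_true_eq_false, false_and, add_zero,
        sub_self, mul_zero]
      simp
  · by_cases hn : c v = n * a v
    · have hvn : v ∈ cls S a c n := mem_cls.mpr ⟨hv, hn⟩
      have hav : a v ≠ 0 := a_ne_zero h hvn
      simp only [hn, not_true_eq_false, and_false, if_false, add_zero, sub_self, mul_zero]
      have hm2 : ¬ (n * a v = m * a v) := by rw [← hn]; exact hm
      simp only [hm2, false_and, if_false]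
      rw [card_eq_zero, filter_eq_empty_iff]
      rintro ⟨δ, z⟩ _ ⟨h1, h2⟩
      obtain ⟨w, hw⟩ := ht
      simp only [fib, mem_filter] at hw
      obtain ⟨hwS, hwm, hwt⟩ := hw
      have hwa : a w ≠ 0 := a_ne_zero h (mem_cls.mpr ⟨hwS, hwm⟩)
      have hne : v ≠ w := by
        rintro rfl
        exact hm hwm
      apply h.ne v hv w hwS hne
      rw [hwm, hn]
      simp only at h1 h2
      linear_combination (a v) * hwt - (a w) * h2 + (a w) * (m - n) * h1
    · simp only [hm, hn, false_and, if_false, not_false_eq_true, and_self, if_true, zero_add]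
      have h1 : m * a v - c v ≠ 0 := fun h0 => hm (sub_eq_zero.mp h0).symm
      have h2 : c v - n * a v ≠ 0 := fun h0 => hn (sub_eq_zero.mp h0)
      rw [card_eq_one]
      refine ⟨((e v - n * d v - t * a v) / (m * a v - c v),
        (d v - (e v - n * d v - t * a v) / (m * a v - c v) * a v) / (c v - n * a v)), ?_⟩
      ext ⟨δ, z⟩
      simp only [mem_filter, mem_univ, true_and, mem_singleton, Prod.mk.injEq]
      constructor
      · rintro ⟨h3, h4⟩
        have h5 : δ = (e v - n * d v - t * a v) / (m * a v - c v) := by
          rw [eq_div_iff h1]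
          linear_combination -h4
        refine ⟨h5, ?_⟩
        rw [← h5, eq_div_iff h2]
        linear_combination -h3
      · rintro ⟨h3, h4⟩
        have h5 : δ * (m * a v - c v) = e v - n * d v - t * a v := by
          rw [h3, div_mul_cancel₀ _ h1]
        have h6 : z * (c v - n * a v) = d v - δ * a v := by
          rw [h4, ← h3, div_mul_cancel₀ _ h2]
        constructor
        · rw [h6]
          ring
        · rw [h5]
          ring

/-- The key identity. -/
theorem key (h : PO S a c d e) (hS : #S = Fintype.card F ^ 2) {m n t : F} (hmn : m ≠ n)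
    (ht : (fib S a c d e m n t).Nonempty) :
    Fintype.card F * #(fib S a c d e m n t) = #(cls S a c m) + #(cls S a c n) := by
  have e1 : ∑ p : F × F, #{v ∈ S | OnL a c d e v (pen m n t p)} = Fintype.card F ^ 2 := by
    simp only [line_eq_one h hS]
    rw [sum_const, smul_eq_mul, mul_one, card_univ, Fintype.card_prod]
    ring
  have e2 : ∑ p : F × F, #{v ∈ S | OnL a c d e v (pen m n t p)} =
      ∑ v ∈ S, #{p : F × F | OnL a c d e v (pen m n t p)} := by
    simp only [card_filter]
    rw [sum_comm]
  have e3 : ∑ v ∈ S, #{p : F × F | OnL a c d e v (pen m n t p)} =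
      Fintype.card F * #(fib S a c d e m n t) +
        #{v ∈ S | ¬ (c v = m * a v) ∧ ¬ (c v = n * a v)} := by
    rw [sum_congr rfl (fun v hv => count_pen h hmn ht v hv), sum_add_distrib]
    congr 1
    · rw [fib, card_filter, mul_sum]
      apply sum_congr rfl
      intro v _
      split_ifs <;> simp
    · rw [card_filter]
  have e4 : #S = #(cls S a c m) + #(cls S a c n) +
      #{v ∈ S | ¬ (c v = m * a v) ∧ ¬ (c v = n * a v)} := by
    rw [cls, cls, card_filter, card_filter, card_filter, ← sum_add_distrib, ← sum_add_distrib,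
      card_eq_sum_ones]
    apply sum_congr rfl
    intro v hv
    by_cases hm : c v = m * a v
    · have hav : a v ≠ 0 := a_ne_zero h (mem_cls.mpr ⟨hv, hm⟩)
      simp [hm, hmn, hav]
    · by_cases hn : c v = n * a v
      · have hav : a v ≠ 0 := a_ne_zero h (mem_cls.mpr ⟨hv, hn⟩)
        simp [hn, hmn.symm, hav]
      · simp [hm, hn]
  rw [e2, e3] at e1
  rw [hS] at e4
  omega

theorem exists_fib {m n : F} {v : ι} (h : PO S a c d e) (hv : v ∈ cls S a c m) :
    ∃ t, v ∈ fib S a c d e m n t := by
  have hav := a_ne_zero h hv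
  refine ⟨(e v - n * d v) / a v, ?_⟩
  rw [fib, mem_filter]
  have := mem_cls.mp hv
  refine ⟨this.1, this.2, ?_⟩
  field_simp

theorem card_cls_eq_sum (h : PO S a c d e) (m n : F) :
    #(cls S a c m) = ∑ t : F, #(fib S a c d e m n t) := by
  classical
  have : cls S a c m = (univ : Finset F).biUnion (fun t => fib S a c d e m n t) := by
    ext v
    simp only [mem_biUnion, mem_univ, true_and]
    constructor
    · intro hv
      exact exists_fib h hv
    · rintro ⟨t, ht⟩
      rw [fib, mem_filter] at ht
      exact mem_cls.mpr ⟨ht.1, ht.2.1⟩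
  rw [this, card_biUnion]
  intro t _ t' _ htt'
  rw [Function.onFun, disjoint_left]
  intro v hv hv'
  rw [fib, mem_filter] at hv hv'
  have hav := a_ne_zero h (mem_cls.mpr ⟨hv.1, hv.2.1⟩)
  apply htt'
  have := hv.2.2.symm.trans hv'.2.2
  exact mul_right_cancel₀ hav this

/-- For odd `q` there is no extremal example. -/
theorem card_ne_of_odd (h : PO S a c d e) (hodd : Odd (Fintype.card F)) :
    #S ≠ Fintype.card F ^ 2 := by
  classical
  intro hS
  set q := Fintype.card F with hq
  have hq1 : 1 < q := Fintype.one_lt_card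
  have hq3 : 3 ≤ q := by
    obtain ⟨k, hk⟩ := hodd
    omega
  let s : F → ℕ := fun m => #(cls S a c m)
  have hs : ∀ m, s m ≤ q := fun m => card_cls_le h m
  -- divisibility
  have hdiv : ∀ m n, m ≠ n → 0 < s m → q ∣ s m + s n := by
    intro m n hmn hpos
    obtain ⟨v, hv⟩ := card_pos.mp hpos
    obtain ⟨t, ht⟩ := exists_fib (n := n) h hv
    exact ⟨_, (key h hS hmn ⟨v, ht⟩).symm⟩
  -- not two full classes
  have htwo : ∀ m n, m ≠ n → ¬ (s m = q ∧ s n = q) := by
    rintro m n hmn ⟨hm, hn⟩
    have h1 : ∀ t, Even (#(fib S a c d e m n t)) := by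
      intro t
      by_cases ht : (fib S a c d e m n t).Nonempty
      · have h2 := key h hS hmn ht
        have h3 : q * #(fib S a c d e m n t) = q * 2 := by
          calc q * #(fib S a c d e m n t) = s m + s n := h2
            _ = q * 2 := by rw [hm, hn]; ring
        have h4 : #(fib S a c d e m n t) = 2 := Nat.eq_of_mul_eq_mul_left (by omega) h3
        rw [h4]
        exact even_two
      · rw [not_nonempty_iff_eq_empty] at ht
        rw [ht, card_empty]
        exact Even.zero
    have h5 : Even q := by
      have h6 : q = ∑ t : F, #(fib S a c d e m n t) := hm.symm.trans (card_cls_eq_sum h m n)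
      rw [h6]
      exact even_sum _ fun t _ => h1 t
    exact (Nat.not_even_iff_odd.mpr hodd) h5
  -- total
  have htotal : q ^ 2 ≤ ∑ m : F, s m + q := by
    have h1 : S = (univ : Finset F).biUnion (fun m => cls S a c m) ∪ {v ∈ S | a v = 0} := by
      ext v
      simp only [mem_union, mem_biUnion, mem_univ, true_and, mem_cls, mem_filter]
      constructor
      · intro hv
        by_cases ha : a v = 0
        · exact Or.inr ⟨hv, ha⟩
        · refine Or.inl ⟨c v / a v, hv, ?_⟩
          field_simp
      · rintro (⟨m, hv, -⟩ | ⟨hv, -⟩) <;> exact hv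
    calc q ^ 2 = #S := hS.symm
      _ = #((univ : Finset F).biUnion (fun m => cls S a c m) ∪ {v ∈ S | a v = 0}) := by
          rw [← h1]
      _ ≤ #((univ : Finset F).biUnion (fun m => cls S a c m)) + #{v ∈ S | a v = 0} :=
          card_union_le _ _
      _ ≤ ∑ m : F, s m + q := Nat.add_le_add card_biUnion_le (card_inf_le h)
  by_cases hfull : ∃ m, s m = q
  · obtain ⟨m, hm⟩ := hfull
    have h0 : ∀ n, n ≠ m → s n = 0 := by
      intro n hn
      have h1 := hdiv m n hn.symm (by rw [hm]; omega)
      rw [hm] at h1
      have h2 : q ∣ s n := (Nat.dvd_add_right (dvd_refl q)).mp h1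
      by_contra h3
      have h4 : s n = q := le_antisymm (hs n) (Nat.le_of_dvd (Nat.pos_of_ne_zero h3) h2)
      exact htwo m n hn.symm ⟨hm, h4⟩
    have h1 : ∑ n : F, s n = q := by
      rw [← hm]
      exact sum_eq_single m (fun n _ hn => h0 n hn) (fun hn => absurd (mem_univ m) hn)
    rw [h1] at htotal
    nlinarith
  · push Not at hfull
    have hlt : ∀ m, s m ≤ q - 1 := fun m => by
      have := lt_of_le_of_ne (hs m) (hfull m)
      omega
    have hall : ∀ m, s m = q - 1 := by
      have h1 : ∑ m : F, s m = ∑ _m : F, (q - 1) := by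
        apply le_antisymm (sum_le_sum fun m _ => hlt m)
        rw [sum_const, smul_eq_mul, card_univ, ← hq]
        obtain ⟨r, hr⟩ : ∃ r, q = r + 1 := ⟨q - 1, by omega⟩
        rw [hr] at htotal ⊢
        simp only [Nat.add_sub_cancel]
        nlinarith
      intro m
      exact (sum_eq_sum_iff_of_le (fun m _ => hlt m)).mp h1 m (mem_univ m)
    obtain ⟨m, n, hmn⟩ := exists_pair_ne F
    have h1 := hdiv m n hmn (by rw [hall]; omega)
    rw [hall, hall] at h1
    have h2 : q ∣ 2 := by
      have h3 : (q - 1 + (q - 1)) + 2 = 2 * q := by omega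
      have h4 : q ∣ (q - 1 + (q - 1)) + 2 := by
        rw [h3]
        exact Dvd.intro_left 2 rfl
      exact (Nat.dvd_add_right h1).mp h4
    have := Nat.le_of_dvd (by norm_num) h2
    omega

theorem card_lt_of_odd (h : PO S a c d e) (hodd : Odd (Fintype.card F)) :
    #S + 1 ≤ Fintype.card F ^ 2 := by
  have h1 := card_le h
  have h2 := card_ne_of_odd h hodd
  omega

end Pool.Agent.Lib.P55cbc6
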