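import Pool.Agent.Lib.P55cbc6.Defs
import Pool.Agent.Lib.P55cbc6.Ovoid

set_option autoImplicit false
set_option linter.unusedSectionVars false

/-!
# The unitriangular group and its non-commuting number
-/

namespace Pool.Agent.Lib.P55cbc6

open Finset Matrix

section Omega

variable {G : Type*} [Group G]

theorem bddAbove_omega [Finite G] :
    BddAbove {k | ∃ X : Finset G, NonCommuting (X : Set G) ∧ #X = k} := by
  classical
  have := Fintype.ofFinite G
  refine ⟨Fintype.card G, ?_⟩
  rintro k ⟨X, -, rfl⟩
  exact card_le_univ X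

theorem le_omega [Finite G] (X : Finset G) (hX : NonCommuting (X : Set G)) : #X ≤ omega G :=
  le_csSup bddAbove_omega ⟨X, hX, rfl⟩

theorem le_omega_of_family [Finite G] {ι : Type*} [Fintype ι] (f : ι → G)
    (hf : ∀ i j, i ≠ j → f i * f j ≠ f j * f i) : Fintype.card ι ≤ omega G := by
  classical
  have hinj : Function.Injective f := by
    intro i j hij
    by_contra hne
    exact hf i j hne (by rw [hij])
  rw [← card_univ, ← card_image_of_injective univ hinj]
  apply le_omega
  intro x hx y hy hxy
  simp only [coe_image, coe_univ, Set.image_univ, Set.mem_range] at hx hy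
  obtain ⟨i, rfl⟩ := hx
  obtain ⟨j, rfl⟩ := hy
  exact hf i j (fun h => hxy (by rw [h]))

theorem omega_le {N : ℕ} (h : ∀ X : Finset G, NonCommuting (X : Set G) → #X ≤ N) :
    omega G ≤ N := by
  apply csSup_le
  · exact ⟨0, ∅, by simp [NonCommuting], by simp⟩
  · rintro k ⟨X, hX, rfl⟩
    exact h X hX

end Omega

section Coordinates

variable {F : Type*} [Field F]

/-- entry `(0, 1)` -/
def ca (g : UU 4 F) : F := g.1.1 0 1
/-- entry `(1, 2)` -/
def cb (g : UU 4 F) : F := g.1.1 1 2
/-- entry `(2, 3)` -/
def cc (g : UU 4 F) : F := g.1.1 2 3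
/-- entry `(0, 2)` -/
def cd (g : UU 4 F) : F := g.1.1 0 2
/-- entry `(1, 3)` -/
def ce (g : UU 4 F) : F := g.1.1 1 3

theorem comm_iff (g h : UU 4 F) : g * h = h * g ↔
    ca g * cb h = ca h * cb g ∧ cb g * cc h = cb h * cc g ∧
      ca g * ce h + cd g * cc h = ca h * ce g + cd h * cc g := by
  have hmat : g * h = h * g ↔ g.1.1 * h.1.1 = h.1.1 * g.1.1 := by
    constructor
    · intro H
      have := congrArg (fun x : UU 4 F => x.1.1) H
      simpa using this
    · intro H
      apply Subtype.ext
      apply Units.ext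
      exact H
  rw [hmat]
  obtain ⟨g0, g1⟩ := g.2
  obtain ⟨h0, h1⟩ := h.2
  have g10 := g0 1 0 (by decide)
  have g20 := g0 2 0 (by decide)
  have g21 := g0 2 1 (by decide)
  have g30 := g0 3 0 (by decide)
  have g31 := g0 3 1 (by decide)
  have g32 := g0 3 2 (by decide)
  have h10 := h0 1 0 (by decide)
  have h20 := h0 2 0 (by decide)
  have h21 := h0 2 1 (by decide)
  have h30 := h0 3 0 (by decide)
  have h31 := h0 3 1 (by decide)
  have h32 := h0 3 2 (by decide)
  have g00 := g1 0
  have g11 := g1 1
  have g22 := g1 2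
  have g33 := g1 3
  have h00 := h1 0
  have h11 := h1 1
  have h22 := h1 2
  have h33 := h1 3
  constructor
  · intro H
    have e02 := congrFun (congrFun H 0) 2
    have e13 := congrFun (congrFun H 1) 3
    have e03 := congrFun (congrFun H 0) 3
    simp only [Matrix.mul_apply, Fin.sum_univ_four] at e02 e13 e03
    rw [g00, h22, g32, h00, g22, h32] at e02
    rw [g10, g11, h33, h10, h11, g33] at e13
    rw [g00, h33, h00, g33] at e03
    unfold ca cb cc cd ce
    refine ⟨?_, ?_, ?_⟩
    · linear_combination e02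
    · linear_combination e13
    · linear_combination e03
  · rintro ⟨e1, e2, e3⟩
    simp only [ca, cb, cc, cd, ce] at e1 e2 e3
    ext i j
    fin_cases i <;> fin_cases j <;>
      simp only [Matrix.mul_apply, Fin.sum_univ_four, Fin.zero_eta, Fin.mk_one,
        Fin.reduceFinMk, g10, g20, g21, g30, g31, g32, h10, h20, h21, h30, h31, h32,
        g00, g11, g22, g33, h00, h11, h22, h33]
    all_goals first
      | linear_combination
      | linear_combination e1
      | linear_combination e2
      | linear_combination e3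

/-- The matrix with prescribed coordinates. -/
def mkM (a b c d e : F) : Matrix (Fin 4) (Fin 4) F :=
  !![1, a, d, 0; 0, 1, b, e; 0, 0, 1, c; 0, 0, 0, 1]

theorem det_mkM (a b c d e : F) : (mkM a b c d e).det = 1 := by
  unfold mkM
  rw [Matrix.det_of_isUpperTriangular]
  · simp [Fin.prod_univ_four]
  · intro i j hij
    fin_cases i <;> fin_cases j <;> simp at hij ⊢

/-- The element of `UU 4 F` with prescribed coordinates. -/
noncomputable def mk (a b c d e : F) : UU 4 F :=
  ⟨GeneralLinearGroup.mkOfDetNeZero (mkM a b c d e) (by rw [det_mkM]; exact one_ne_zero), by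
    constructor
    · intro i j hij
      change mkM a b c d e i j = 0
      unfold mkM
      fin_cases i <;> fin_cases j <;> simp at hij ⊢
    · intro i
      change mkM a b c d e i i = 1
      unfold mkM
      fin_cases i <;> simp⟩

theorem ca_mk (a b c d e : F) : ca (mk a b c d e) = a := by
  change mkM a b c d e 0 1 = a
  simp [mkM]
theorem cb_mk (a b c d e : F) : cb (mk a b c d e) = b := by
  change mkM a b c d e 1 2 = b
  simp [mkM]
theorem cc_mk (a b c d e : F) : cc (mk a b c d e) = c := by
  change mkM a b c d e 2 3 = c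
  simp [mkM]
theorem cd_mk (a b c d e : F) : cd (mk a b c d e) = d := by
  change mkM a b c d e 0 2 = d
  simp [mkM]
theorem ce_mk (a b c d e : F) : ce (mk a b c d e) = e := by
  change mkM a b c d e 1 3 = e
  simp [mkM]

theorem mk_comm (a b c d e a' b' c' d' e' : F) :
    mk a b c d e * mk a' b' c' d' e' = mk a' b' c' d' e' * mk a b c d e ↔
    a * b' = a' * b ∧ b * c' = b' * c ∧ a * e' + d * c' = a' * e + d' * c := by
  rw [comm_iff]
  simp only [ca_mk, cb_mk, cc_mk, cd_mk, ce_mk]

end Coordinates

/-! ## Upper bounds -/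

section Upper

variable {F : Type*} [Field F] [Fintype F]

theorem card_F3 : Fintype.card (F × F × F) = Fintype.card F ^ 3 := by
  rw [Fintype.card_prod, Fintype.card_prod]
  ring

/-- The three parts of a non-commuting set. -/
theorem upper_aux (X : Finset (UU 4 F)) (hX : NonCommuting (X : Set (UU 4 F))) (M : ℕ)
    (hM : ∀ (S : Finset (UU 4 F)), PO S ca cc cd ce → #S ≤ M)
    (hM2 : M ≤ Fintype.card F ^ 2)
    (hM3 : Fintype.card F ≤ M) :
    #X ≤ Fintype.card F ^ 3 - (Fintype.card F - 1) + M := by
  classical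
  set q := Fintype.card F with hq
  have hq1 : 1 < q := Fintype.one_lt_card
  let X1 : Finset (UU 4 F) := {g ∈ X | cb g ≠ 0}
  let XL : Finset (UU 4 F) := {g ∈ X | cb g = 0 ∧ ca g = 0 ∧ cc g = 0}
  let X0 : Finset (UU 4 F) := {g ∈ X | cb g = 0 ∧ ¬ (ca g = 0 ∧ cc g = 0)}
  have hsplit : #X ≤ #X1 + #XL + #X0 := by
    have : X ⊆ X1 ∪ XL ∪ X0 := by
      intro g hg
      simp only [X1, XL, X0, mem_union, mem_filter]
      tauto
    calc #X ≤ #(X1 ∪ XL ∪ X0) := card_le_card this
      _ ≤ #(X1 ∪ XL) + #X0 := card_union_le _ _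
      _ ≤ #X1 + #XL + #X0 := Nat.add_le_add_right (card_union_le _ _) _
  have hX0 : #X0 ≤ M := by
    apply hM
    constructor
    · intro v hv
      simp only [X0, mem_filter] at hv
      exact hv.2.2
    · intro v hv w hw hvw heq
      simp only [X0, mem_filter] at hv hw
      apply hX v hv.1 w hw.1 hvw
      rw [comm_iff, hv.2.1, hw.2.1]
      refine ⟨by ring, by ring, heq⟩
  -- the class map on `X1`
  let κ : UU 4 F → F × F × F := fun g =>
    (ca g / cb g, cc g / cb g, (ca g * ce g - cc g * cd g) / (cb g) ^ 2)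
  have hκ : ∀ g ∈ X1, ∀ h ∈ X1, κ g = κ h → g = h := by
    intro g hg h hh heq
    by_contra hne
    simp only [X1, mem_filter] at hg hh
    simp only [κ, Prod.mk.injEq] at heq
    obtain ⟨e1, e2, e3⟩ := heq
    have hg2 := hg.2
    have hh2 := hh.2
    rw [div_eq_div_iff hg2 hh2] at e1 e2
    rw [div_eq_div_iff (pow_ne_zero 2 hg2) (pow_ne_zero 2 hh2)] at e3
    apply hX g hg.1 h hh.1 hne
    rw [comm_iff]
    refine ⟨e1, ?_, ?_⟩
    · linear_combination -e2
    · -- `(a e - c d) b'^2 = (a' e' - c' d') b^2`
      have h1 : (cb g * cb h) * (ca g * ce h + cd g * cc h - (ca h * ce g + cd h * cc g)) = 0 := by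
        linear_combination (cb g * ce h + cb h * ce g) * e1
          - (cb h * cd g + cb g * cd h) * e2 - e3
      have h2 : cb g * cb h ≠ 0 := mul_ne_zero hg2 hh2
      have h3 := (mul_eq_zero.mp h1).resolve_left h2
      exact sub_eq_zero.mp h3
  have hinj : ∀ T : Finset (F × F × F), (∀ g ∈ X1, κ g ∈ T) → #X1 ≤ #T := by
    intro T hT
    exact card_le_card_of_injOn κ (fun g hg => hT g hg)
      (fun g hg h hh heq => hκ g hg h hh heq)
  by_cases hXL : XL.Nonempty
  · -- one element of the line
    obtain ⟨P, hP⟩ := hXL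
    have hP' := hP
    simp only [XL, mem_filter] at hP'
    obtain ⟨hPX, hPb, hPa, hPc⟩ := hP'
    have hXL1 : #XL ≤ 1 := by
      rw [card_le_one]
      intro g hg h hh
      by_contra hne
      simp only [XL, mem_filter] at hg hh
      apply hX g hg.1 h hh.1 hne
      rw [comm_iff, hg.2.1, hg.2.2.1, hg.2.2.2, hh.2.1, hh.2.2.1, hh.2.2.2]
      refine ⟨by ring, by ring, by ring⟩
    by_cases hz : cd P = 0 ∧ ce P = 0
    · -- `P` is central
      have hone : #X ≤ 1 := by
        rw [card_le_one]
        have hall : ∀ g ∈ X, g = P := by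
          intro g hg
          by_contra hne
          apply hX g hg P hPX hne
          rw [comm_iff, hPa, hPb, hPc, hz.1, hz.2]
          refine ⟨by ring, by ring, by ring⟩
        intro g hg h hh
        rw [hall g hg, hall h hh]
      omega
    · let T : Finset (F × F × F) := {t | t.1 * ce P ≠ t.2.1 * cd P}
      have hT1 : #X1 ≤ #T := by
        apply hinj
        intro g hg
        simp only [T, mem_filter, mem_univ, true_and, κ]
        intro heq
        simp only [X1, mem_filter] at hg
        have hne : g ≠ P := by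
          rintro rfl
          exact hg.2 hPb
        apply hX g hg.1 P hPX hne
        have hb := hg.2
        rw [comm_iff, hPa, hPb, hPc]
        refine ⟨by ring, by ring, ?_⟩
        field_simp at heq
        linear_combination heq
      have hT2 : #T + q ^ 2 ≤ q ^ 3 := by
        have h1 : #T + #{t : F × F × F | ¬ (t.1 * ce P ≠ t.2.1 * cd P)} = q ^ 3 := by
          have := card_filter_add_card_filter_not (s := (univ : Finset (F × F × F)))
            (fun t : F × F × F => t.1 * ce P ≠ t.2.1 * cd P)
          rw [card_univ, card_F3] at this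
          exact this
        have h2 : q ^ 2 ≤ #{t : F × F × F | ¬ (t.1 * ce P ≠ t.2.1 * cd P)} := by
          have h3 : q ^ 2 = #(univ : Finset (F × F)) := by
            rw [card_univ, Fintype.card_prod]
            ring
          rw [h3]
          apply card_le_card_of_injOn (fun u : F × F => (u.1 * cd P, u.1 * ce P, u.2))
          · intro u _
            rw [mem_coe, mem_filter]
            refine ⟨mem_univ _, ?_⟩
            simp only [ne_eq, not_not]
            ring
          · intro u _ v _ huv
            simp only [Prod.mk.injEq] at huv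
            obtain ⟨h4, h5, h6⟩ := huv
            have h7 : u.1 = v.1 := by
              by_cases hd : cd P = 0
              · have he : ce P ≠ 0 := fun he => hz ⟨hd, he⟩
                exact mul_right_cancel₀ he h5
              · exact mul_right_cancel₀ hd h4
            exact Prod.ext h7 h6
        omega
      have hq2 : q ^ 2 ≥ 2 * q := by nlinarith
      have hq3 : q ^ 3 ≥ 2 * q ^ 2 := by
        calc q ^ 3 = q * q ^ 2 := by ring
          _ ≥ 2 * q ^ 2 := Nat.mul_le_mul_right _ hq1
      omega
  · rw [not_nonempty_iff_eq_empty] at hXL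
    have hX1 : #X1 ≤ q ^ 3 - (q - 1) := by
      let T : Finset (F × F × F) := {t | ¬ (t.1 = 0 ∧ t.2.1 = 0 ∧ t.2.2 ≠ 0)}
      have hT1 : #X1 ≤ #T := by
        apply hinj
        intro g hg
        simp only [X1, mem_filter] at hg
        have hb := hg.2
        simp only [T, mem_filter, mem_univ, true_and, κ]
        rintro ⟨h1, h2, h3⟩
        apply h3
        have h4 : ca g = 0 := by
          rcases div_eq_zero_iff.mp h1 with h | h
          · exact h
          · exact absurd h hb
        have h5 : cc g = 0 := by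
          rcases div_eq_zero_iff.mp h2 with h | h
          · exact h
          · exact absurd h hb
        rw [h4, h5]
        simp
      have hT2 : #T + (q - 1) ≤ q ^ 3 := by
        have h1 : #{t : F × F × F | t.1 = 0 ∧ t.2.1 = 0 ∧ t.2.2 ≠ 0} + #T = q ^ 3 := by
          have := card_filter_add_card_filter_not (s := (univ : Finset (F × F × F)))
            (fun t : F × F × F => t.1 = 0 ∧ t.2.1 = 0 ∧ t.2.2 ≠ 0)
          rw [card_univ, card_F3] at this
          exact this
        have h2 : q - 1 ≤ #{t : F × F × F | t.1 = 0 ∧ t.2.1 = 0 ∧ t.2.2 ≠ 0} := by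
          have h3 : q - 1 = #((univ : Finset F).erase 0) := by
            rw [card_erase_of_mem (mem_univ _), card_univ]
          rw [h3]
          apply card_le_card_of_injOn (fun u : F => ((0 : F), (0 : F), u))
          · intro u hu
            rw [mem_coe, mem_filter]
            refine ⟨mem_univ _, rfl, rfl, ?_⟩
            rw [mem_coe, mem_erase] at hu
            exact hu.1
          · intro u _ v _ huv
            simp only [Prod.mk.injEq] at huv
            exact huv.2.2
        omega
      omega
    rw [hXL, card_empty] at hsplit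
    omega

/-- Upper bound, any `q`. -/
theorem omega_le_all : omega (UU 4 F) ≤
    Fintype.card F ^ 3 - (Fintype.card F - 1) + Fintype.card F ^ 2 := by
  classical
  apply omega_le
  intro X hX
  have hq1 : 1 < Fintype.card F := Fintype.one_lt_card
  apply upper_aux X hX _ (fun S hS => card_le hS) le_rfl
  nlinarith

/-- Upper bound, odd `q`. -/
theorem omega_le_odd (hodd : Odd (Fintype.card F)) : omega (UU 4 F) ≤
    Fintype.card F ^ 3 - (Fintype.card F - 1) + (Fintype.card F ^ 2 - 1) := by
  classical
  apply omega_le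
  intro X hX
  have hq1 : 1 < Fintype.card F := Fintype.one_lt_card
  apply upper_aux X hX _ (fun S hS => ?_) (Nat.sub_le _ _)
  · have : Fintype.card F ^ 2 ≥ 2 * Fintype.card F := by nlinarith
    omega
  · have := card_lt_of_odd hS hodd
    omega

end Upper

/-! ## Lower bound for even `q` -/

section Lower

variable {F : Type*} [Field F] [Fintype F]

/-- In characteristic two there is an anisotropic form `x ^ 2 + x y + θ y ^ 2`. -/
theorem exists_theta [CharP F 2] : ∃ θ : F, ∀ x y : F, x ^ 2 + x * y + θ * y ^ 2 = 0 →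
    x = 0 ∧ y = 0 := by
  have h1 : ¬ Function.Injective (fun t : F => t ^ 2 + t) := by
    intro h
    have h2 : (fun t : F => t ^ 2 + t) 0 = (fun t : F => t ^ 2 + t) 1 := by
      simp only [ne_eq, OfNat.ofNat_ne_zero, not_false_eq_true, zero_pow, add_zero, one_pow]
      exact (CharTwo.add_self_eq_zero (1 : F)).symm
    exact zero_ne_one (h h2)
  have h2 : ¬ Function.Surjective (fun t : F => t ^ 2 + t) := fun h =>
    h1 (Finite.injective_iff_surjective.mpr h)
  rw [Function.Surjective] at h2
  push Not at h2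
  obtain ⟨θ, hθ⟩ := h2
  refine ⟨θ, ?_⟩
  intro x y hxy
  by_cases hy : y = 0
  · subst hy
    simp at hxy
    exact ⟨hxy, rfl⟩
  · exfalso
    apply hθ (x / y)
    have h3 : (x / y) ^ 2 + x / y + θ = 0 := by
      field_simp
      linear_combination hxy
    have h4 : (x / y) ^ 2 + x / y = - θ := by linear_combination h3
    rw [h4, CharTwo.neg_eq]

/-- Index set of the elements with `b = 1`. -/
abbrev Idx (F : Type*) [Field F] := {t : F × F × F // ¬ (t.1 = 0 ∧ t.2.1 = 0 ∧ t.2.2 ≠ 0)}

/-- The family realising the lower bound. -/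
noncomputable def fam (θ : F) : Idx F ⊕ (F × F) → UU 4 F
  | Sum.inl t => by
      classical
      exact if t.1.1 = 0 then mk t.1.1 1 t.1.2.1 (-(t.1.2.2) / t.1.2.1) 0
        else mk t.1.1 1 t.1.2.1 0 (t.1.2.2 / t.1.1)
  | Sum.inr p => mk 1 0 p.1 p.2 (p.1 ^ 2 + p.1 * p.2 + θ * p.2 ^ 2)

theorem fam_inl (θ : F) (t : Idx F) : ∃ d e : F, fam θ (Sum.inl t) = mk t.1.1 1 t.1.2.1 d e ∧
    t.1.1 * e - t.1.2.1 * d = t.1.2.2 := by
  classical
  obtain ⟨⟨α, γ, κ⟩, ht⟩ := t
  simp only at ht
  by_cases hα : α = 0
  · refine ⟨-κ / γ, 0, ?_, ?_⟩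
    · simp [fam, hα]
    · simp only [hα, true_and] at ht ⊢
      by_cases hγ : γ = 0
      · have hκ : κ = 0 := by
          by_contra hκ
          exact ht ⟨hγ, hκ⟩
        rw [hγ, hκ]
        ring
      · field_simp
        ring
  · refine ⟨0, κ / α, ?_, ?_⟩
    · simp [fam, hα]
    · field_simp
      ring

theorem fam_ne (θ : F) [CharP F 2]
    (hθ : ∀ x y : F, x ^ 2 + x * y + θ * y ^ 2 = 0 → x = 0 ∧ y = 0)
    (i j : Idx F ⊕ (F × F)) (hij : i ≠ j) :
    fam θ i * fam θ j ≠ fam θ j * fam θ i := by
  rcases i with t | p <;> rcases j with t' | p'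
  · obtain ⟨d, e, h1, h2⟩ := fam_inl θ t
    obtain ⟨d', e', h1', h2'⟩ := fam_inl θ t'
    rw [h1, h1']
    intro hc
    rw [mk_comm] at hc
    obtain ⟨c1, c2, c3⟩ := hc
    apply hij
    have e1 : t.1.1 = t'.1.1 := by linear_combination c1
    have e2 : t.1.2.1 = t'.1.2.1 := by linear_combination -c2
    congr 1
    apply Subtype.ext
    refine Prod.ext e1 (Prod.ext e2 ?_)
    rw [← h2, ← h2']
    rw [← e1, ← e2] at c3 ⊢
    linear_combination -c3
  · obtain ⟨d, e, h1, h2⟩ := fam_inl θ t
    rw [h1]
    intro hc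
    change mk _ _ _ _ _ * mk _ _ _ _ _ = mk _ _ _ _ _ * mk _ _ _ _ _ at hc
    rw [mk_comm] at hc
    have := hc.1
    simp at this
  · obtain ⟨d, e, h1, h2⟩ := fam_inl θ t'
    rw [h1]
    intro hc
    change mk _ _ _ _ _ * mk _ _ _ _ _ = mk _ _ _ _ _ * mk _ _ _ _ _ at hc
    rw [mk_comm] at hc
    have := hc.1
    simp at this
  · intro hc
    change mk _ _ _ _ _ * mk _ _ _ _ _ = mk _ _ _ _ _ * mk _ _ _ _ _ at hc
    rw [mk_comm] at hc
    have h3 := hc.2.2
    have h2 : (2 : F) = 0 := CharTwo.two_eq_zero
    have h4 := hθ (p.1 + p'.1) (p.2 + p'.2) (by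
      linear_combination h3 + (p.1 ^ 2 + p.1 * p'.1 + p.1 * p.2 + p.1 * p'.2 + θ * p.2 ^ 2
        + θ * p.2 * p'.2) * h2)
    apply hij
    congr 1
    refine Prod.ext ?_ ?_
    · have := h4.1
      linear_combination this - p'.1 * h2
    · have := h4.2
      linear_combination this - p'.2 * h2

theorem card_Idx [DecidableEq F] : Fintype.card (Idx F) = Fintype.card F ^ 3 - (Fintype.card F - 1) := by
  have h1 := Fintype.card_subtype_compl (fun t : F × F × F => t.1 = 0 ∧ t.2.1 = 0 ∧ t.2.2 ≠ 0)
  have h2 : Fintype.card {t : F × F × F // t.1 = 0 ∧ t.2.1 = 0 ∧ t.2.2 ≠ 0} =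
      Fintype.card F - 1 := by
    have h3 : Fintype.card {u : F // u ≠ 0} = Fintype.card F - 1 := by
      rw [Fintype.card_subtype_compl, Fintype.card_subtype_eq]
    rw [← h3]
    apply Fintype.card_congr
    exact
      { toFun := fun t => ⟨t.1.2.2, t.2.2.2⟩
        invFun := fun u => ⟨(0, 0, u.1), rfl, rfl, u.2⟩
        left_inv := by
          rintro ⟨⟨x, y, z⟩, hx, hy, hz⟩
          simp only at hx hy
          subst hx hy
          rfl
        right_inv := by
          rintro ⟨u, hu⟩
          rfl }
  rw [h2, card_F3] at h1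
  exact h1

/-- Lower bound, even `q`. -/
theorem le_omega_even [CharP F 2] :
    Fintype.card F ^ 3 - (Fintype.card F - 1) + Fintype.card F ^ 2 ≤ omega (UU 4 F) := by
  classical
  obtain ⟨θ, hθ⟩ := exists_theta (F := F)
  have h1 := le_omega_of_family (fam θ) (fam_ne θ hθ)
  rw [Fintype.card_sum, card_Idx, Fintype.card_prod] at h1
  calc _ = Fintype.card F ^ 3 - (Fintype.card F - 1) + Fintype.card F * Fintype.card F := by ring
    _ ≤ _ := h1

/-- The exact value for even `q`. -/
theorem omega_even [CharP F 2] : omega (UU 4 F) =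
    Fintype.card F ^ 3 - (Fintype.card F - 1) + Fintype.card F ^ 2 :=
  le_antisymm omega_le_all le_omega_even

end Lower

end Pool.Agent.Lib.P55cbc6
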